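import Pool.Agent.H693.Dep.Abs
import Pool.Graph.R_pool_sql_team_seeded_c8625f6e.K4H92.LP.Edge
set_option autoImplicit false

/-!
# Short improving paths from shallow families of tight sets: polyhedra
-/

namespace Pool.Agent.H693.Dep

open Finset Module Pool.Agent.K4H92.LP

variable {E : Type*} [AddCommGroup E] [Module ℝ E] {I : Type*} [Fintype I]
  {a : I → E →ₗ[ℝ] ℝ} {β : I → ℝ} {c : E →ₗ[ℝ] ℝ}

theorem vert_eq {v w : E} (hv : Vert a β v) (h : tight a β v ⊆ tight a β w) : v = w := by
  have : w - v = 0 := hv.2 _ fun i hi => by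
    rw [map_sub, mem_tight.1 (h hi), mem_tight.1 hi, sub_self]
  exact (sub_eq_zero.1 this).symm

theorem finite_vert (a : I → E →ₗ[ℝ] ℝ) (β : I → ℝ) : Finite {v : E // Vert a β v} :=
  Finite.of_injective (fun v : {v : E // Vert a β v} => tight a β v.1) fun v w h =>
    Subtype.ext (vert_eq v.2 (by simp only at h; rw [h]))

/-- an improving edge in the smallest face which contains `v` and a better point -/
theorem improve {v u : E} (hv : Vert a β v) (hu : u ∈ PP a β) (hc : c v < c u) :
    ∃ e, Dir a (tight a β v) e ∧ 0 < c e ∧ ∀ i ∈ tight a β v, a i u = β i → a i e = 0 := by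
  classical
  by_contra hcon
  push Not at hcon
  set S := (tight a β v).filter fun i => a i u = β i with hS
  set g : E →ₗ[ℝ] ℝ := ∑ i ∈ S, a i with hg
  have hga : ∀ x, g x = ∑ i ∈ S, a i x := fun x => by simp [hg, LinearMap.sum_apply]
  have hgle : ∀ e, Dir a (tight a β v) e → g e ≤ 0 := fun e he => by
    rw [hga]
    exact sum_nonpos fun i hi => he.1 i (mem_filter.1 hi).1
  have hg0 : ∀ e, Dir a (tight a β v) e → g e = 0 → c e ≤ 0 := by
    intro e he h0
    by_contra hce
    push Not at hce
    obtain ⟨i, hi, hiu, hne⟩ := hcon e he hce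
    rw [hga, sum_eq_zero_iff_of_nonpos fun i hi => he.1 i (mem_filter.1 hi).1] at h0
    exact hne (h0 i (mem_filter.2 ⟨hi, hiu⟩))
  obtain ⟨δ, hδ, hδ'⟩ := exists_small
    ((dir_finite a (tight a β v)).toFinset.filter fun e => g e < 0) (fun e => - g e)
    (fun e => c e) (fun e he => by
      have := (mem_filter.1 he).2
      linarith)
  have hF : ∀ e, Dir a (tight a β v) e → (g + δ • c) e ≤ 0 := by
    intro e he
    rw [LinearMap.add_apply, LinearMap.smul_apply, smul_eq_mul]
    rcases (hgle e he).lt_or_eq with h1 | h1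
    · have := hδ' e (mem_filter.2 ⟨by rw [Set.Finite.mem_toFinset]; exact he, h1⟩)
      linarith
    · have h2 := hg0 e he h1
      rw [h1]
      have := mul_nonpos_of_nonneg_of_nonpos hδ.le h2
      linarith
  have h3 := vert_le hv hF hu
  simp only [LinearMap.add_apply, LinearMap.smul_apply, smul_eq_mul] at h3
  have h4 : g u = g v := by
    rw [hga, hga]
    refine sum_congr rfl fun i hi => ?_
    obtain ⟨h5, h6⟩ := mem_filter.1 hi
    rw [h6, mem_tight.1 h5]
  rw [h4] at h3
  have := mul_lt_mul_of_pos_left hc hδ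
  linarith

/-- there is an unbounded improving edge at `v` -/
def Ray (a : I → E →ₗ[ℝ] ℝ) (β : I → ℝ) (c : E →ₗ[ℝ] ℝ) (v : E) : Prop :=
  ∃ e, Dir a (tight a β v) e ∧ 0 < c e ∧ ∀ t : ℝ, 0 ≤ t → v + t • e ∈ PP a β

theorem fi {v u : E} (hv : Vert a β v) (hu : u ∈ PP a β) (hc : c v < c u) :
    Ray a β c v ∨ ∃ w, Step a β c v w ∧ ∀ i, a i v = β i → a i u = β i → a i w = β i := by
  obtain ⟨e, he, hce, h⟩ := improve hv hu hc
  rcases step_end hv he with h1 | ⟨t, ht, h1, h2⟩
  · exact Or.inl ⟨e, he, hce, h1⟩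
  · right
    refine ⟨v + t • e, ⟨hv, h1, e, t, he, hce, ht, rfl, h2⟩, fun i hi hiu => ?_⟩
    rw [map_add, map_smul, h i (mem_tight.2 hi) hiu, smul_zero, add_zero, hi]

/-- the common kernel of the rows with names in `S` -/
def ker {P : Type*} (a : I → E →ₗ[ℝ] ℝ) (e : P → I) (S : Finset P) : Submodule ℝ E where
  carrier := {x | ∀ p ∈ S, a (e p) x = 0}
  add_mem' := by
    intro x y hx hy p hp
    rw [map_add, hx p hp, hy p hp, add_zero]
  zero_mem' := by
    intro p _
    exact map_zero _
  smul_mem' := by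
    intro t x hx p hp
    rw [map_smul, hx p hp, smul_zero]

omit [Fintype I] in
theorem mem_ker {P : Type*} {e : P → I} {S : Finset P} {x : E} :
    x ∈ ker a e S ↔ ∀ p ∈ S, a (e p) x = 0 := Iff.rfl

open Classical in
/-- the names of the tight rows -/
noncomputable def nm {P : Type*} [Fintype P] (a : I → E →ₗ[ℝ] ℝ) (β : I → ℝ) (e : P → I) (v : E) :
    Finset P := univ.filter fun p => a (e p) v = β (e p)

omit [Fintype I] in
theorem mem_nm {P : Type*} [Fintype P] {e : P → I} {v : E} {p : P} :
    p ∈ nm a β e v ↔ a (e p) v = β (e p) := by simp [nm]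

omit [Fintype I] in
/-- the dimension of the kernel of the common tight rows of two vertices decreases -/
theorem dim_lt [FiniteDimensional ℝ E] {P : Type*} [Fintype P] [DecidableEq P] {e : P → I}
    {v u v' u' : E} (h : nm a β e v ∩ nm a β e u ⊂ nm a β e v' ∩ nm a β e u') :
    finrank ℝ (ker a e (nm a β e v' ∩ nm a β e u')) <
      finrank ℝ (ker a e (nm a β e v ∩ nm a β e u)) := by
  apply Submodule.finrank_lt_finrank_of_lt
  refine ⟨fun x hx p hp => hx p (h.1 hp), fun hcon => h.2 fun p hp => ?_⟩
  have hvv : v' - v ∈ ker a e (nm a β e v ∩ nm a β e u) := by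
    intro q hq
    have h4 := mem_nm.1 (mem_inter.1 (h.1 hq)).1
    rw [map_sub, h4, mem_nm.1 (mem_inter.1 hq).1, sub_self]
  have hvu : v' - u ∈ ker a e (nm a β e v ∩ nm a β e u) := by
    intro q hq
    have h4 := mem_nm.1 (mem_inter.1 (h.1 hq)).1
    rw [map_sub, h4, mem_nm.1 (mem_inter.1 hq).2, sub_self]
  have h5 := hcon hvv p hp
  have h6 := hcon hvu p hp
  have h7 := mem_nm.1 (mem_inter.1 hp).1
  rw [map_sub, h7] at h5 h6
  rw [mem_inter, mem_nm, mem_nm]
  constructor <;> linarith

/-- **Polyhedra with shallow families of tight sets have short improving paths.** -/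
theorem walk {P : Type*} [Fintype P] [DecidableEq P] (e : P → I) (r q : ℕ) (dim : Finset P → ℕ)
    (hinj : ∀ v w, Vert a β v → Vert a β w → nm a β e v ⊆ nm a β e w → v = w)
    (hdim : ∀ v u v' u', Vert a β v → Vert a β u → Vert a β v' → Vert a β u' →
      nm a β e v ∩ nm a β e u ⊂ nm a β e v' ∩ nm a β e u' →
      dim (nm a β e v' ∩ nm a β e u') < dim (nm a β e v ∩ nm a β e u))
    (hq : ∀ v u, Vert a β v → Vert a β u → dim (nm a β e v ∩ nm a β e u) ≤ q)
    (hsh : Shal {t | ∃ v, Vert a β v ∧ nm a β e v = t} r ∅ ∅) {v : E} (hv : Vert a β v) :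
    ∃ (N : ℕ) (w : E), N + 1 ≤ (q + r).choose r ∧ W (Step a β c) N v w ∧ Vert a β w ∧
      ((∀ x ∈ PP a β, c x ≤ c w) ∨ Ray a β c w) := by
  classical
  have := finite_vert a β
  set V := {v : E // Vert a β v} with hV
  obtain ⟨N, w, h1, h2, -, h3⟩ := level (V := V) (St := fun v w => Step a β c v.1 w.1)
    (fun v => nm a β e v.1) (fun v => c v.1) (fun v => Ray a β c v.1) dim
    (fun v u h => Subtype.ext (hinj v.1 u.1 v.2 u.2 h))
    (fun v u v' u' h => hdim v.1 u.1 v'.1 u'.1 v.2 u.2 v'.2 u'.2 h)
    (by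
      rintro ⟨v, hv⟩ ⟨u, hu⟩ h
      simp only at h ⊢
      rcases fi hv hu.1 h with h1 | ⟨w, hw, h2⟩
      · exact Or.inl h1
      · right
        refine ⟨⟨w, hw.2.1⟩, hw, hw.lt, fun p hp => ?_⟩
        obtain ⟨h3, h4⟩ := mem_inter.1 hp
        exact mem_nm.2 (h2 _ (mem_nm.1 h3) (mem_nm.1 h4)))
    r ∅ ∅ q (hsh.mono (by
      rintro _ ⟨v, rfl⟩
      exact ⟨v.1, v.2, rfl⟩)) (fun u w _ => hq u.1 w.1 u.2 w.2) ⟨v, hv⟩ (empty_subset _)
    (disjoint_empty_right _)
  have hW : ∀ {N : ℕ} {x y : V}, W (fun v w : V => Step a β c v.1 w.1) N x y →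
      W (Step a β c) N x.1 y.1 := by
    intro N x y h
    induction h with
    | nil v => exact .nil _
    | cons N v w z h _ ih => exact .cons _ _ _ _ h ih
  refine ⟨N, w.1, h1, hW h2, w.2, ?_⟩
  rcases h3 with h3 | h3 | h3
  · exact Or.inr h3
  · exact absurd (disjoint_empty_right _) h3
  · by_cases hopt : ∀ e, Dir a (tight a β w.1) e → c e ≤ 0
    · exact Or.inl fun x hx => vert_le w.2 hopt hx
    · push Not at hopt
      obtain ⟨g, hg, hcg⟩ := hopt
      rcases step_end w.2 hg with h4 | ⟨t, ht, h4, _⟩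
      · exact Or.inr ⟨g, hg, hcg, h4⟩
      · exfalso
        have h5 := h3 ⟨_, h4⟩ (empty_subset _) (disjoint_empty_right _)
        simp only [map_add, map_smul, smul_eq_mul] at h5
        have := mul_pos ht hcg
        linarith

/-! ### The members of a block: the tight sets of the vertices of a polyhedron -/

theorem card_tight [FiniteDimensional ℝ E] {v : E} (hv : Vert a β v) :
    finrank ℝ E ≤ (tight a β v).card := by
  classical
  set L : E →ₗ[ℝ] (tight a β v → ℝ) := LinearMap.pi fun i => a i with hL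
  have hinj : Function.Injective L := by
    rw [injective_iff_map_eq_zero]
    intro x hx
    refine hv.2 x fun i hi => ?_
    have := congrFun hx ⟨i, hi⟩
    simpa [hL] using this
  have := LinearMap.finrank_le_finrank_of_injective hinj
  rw [Module.finrank_fintype_fun_eq_card, Fintype.card_coe] at this
  exact this

theorem nm_id (v : E) : nm a β id v = tight a β v := by
  classical
  ext i
  rw [mem_nm, mem_tight]
  exact Iff.rfl

/-- the dimension of the face of two vertices is at most the number of tight rows of the one which are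
not tight at the other -/
theorem dim_le [FiniteDimensional ℝ E] [DecidableEq I] {v w : E} (hv : Vert a β v) :
    finrank ℝ (ker a id (tight a β v ∩ tight a β w)) ≤ (tight a β v \ tight a β w).card := by
  classical
  set L : ker a id (tight a β v ∩ tight a β w) →ₗ[ℝ] ((tight a β v \ tight a β w : Finset I) → ℝ) :=
    LinearMap.pi fun i => (a i).comp (Submodule.subtype _) with hL
  have hinj : Function.Injective L := by
    rw [injective_iff_map_eq_zero]
    rintro ⟨x, hx⟩ h
    refine Subtype.ext (hv.2 x fun i hi => ?_)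
    by_cases hw : i ∈ tight a β w
    · exact hx i (mem_inter.2 ⟨hi, hw⟩)
    · have := congrFun h ⟨i, mem_sdiff.2 ⟨hi, hw⟩⟩
      simpa [hL] using this
  have := LinearMap.finrank_le_finrank_of_injective hinj
  rw [Module.finrank_fintype_fun_eq_card, Fintype.card_coe] at this
  exact this

/-- at most two vertices on a line -/
theorem edge_unique [DecidableEq I] {t u w : E} (ht : Vert a β t) (hu : Vert a β u) (hw : Vert a β w)
    {i : I} (hi : i ∈ tight a β t) (h1 : (tight a β t).erase i ⊆ tight a β u)
    (h2 : (tight a β t).erase i ⊆ tight a β w) (h3 : i ∉ tight a β u) (h4 : i ∉ tight a β w) :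
    u = w := by
  have hti := mem_tight.1 hi
  have key : ∀ x : E, (∀ j ∈ (tight a β t).erase i, a j x = 0) → a i x = 0 → x = 0 := by
    intro x hx hxi
    refine ht.2 x fun j hj => ?_
    by_cases hji : j = i
    · rw [hji]; exact hxi
    · exact hx j (mem_erase.2 ⟨hji, hj⟩)
  have hz : ∀ y : E, (tight a β t).erase i ⊆ tight a β y →
      ∀ j ∈ (tight a β t).erase i, a j (y - t) = 0 := by
    intro y hy j hj
    rw [map_sub, mem_tight.1 (hy hj), mem_tight.1 (mem_of_mem_erase hj), sub_self]
  have hneg : ∀ y : E, Vert a β y → i ∉ tight a β y → 0 < β i - a i y := fun y hy hyi =>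
    sub_pos.2 (lt_of_le_of_ne (hy.1 i) fun h => hyi (mem_tight.2 h))
  have hp := hneg u hu h3
  have hq := hneg w hw h4
  set p := β i - a i u with hpdef
  set q := β i - a i w with hqdef
  have hline : q • (u - t) = p • (w - t) := by
    refine sub_eq_zero.1 (key _ (fun j hj => ?_) ?_)
    · rw [map_sub, map_smul, map_smul, hz u h1 j hj, hz w h2 j hj, smul_zero, smul_zero, sub_zero]
    · rw [map_sub, map_smul, map_smul, map_sub, map_sub, smul_eq_mul, smul_eq_mul, hti]
      rw [hpdef, hqdef]; ring
  -- if `u` is strictly between `t` and `w` then `u = t`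
  have bet : ∀ {u w : E}, Vert a β u → Vert a β w → i ∉ tight a β u → ∀ {p q : ℝ}, 0 < p → p < q →
      q • (u - t) = p • (w - t) → False := by
    intro u w hu hw h3 p q hp hpq hline
    have hq : 0 < q := hp.trans hpq
    have hsub : tight a β u ⊆ tight a β t := by
      intro j hj
      have e1 : q * (a j u - a j t) = p * (a j w - a j t) := by
        have := congrArg (a j) hline
        simpa [map_smul, map_sub] using this
      have e2 := mem_tight.1 hj
      have e3 := hw.1 j
      have e4 := ht.1 j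
      rw [mem_tight]
      by_contra hne
      have e5 : a j t < β j := lt_of_le_of_ne e4 hne
      rw [e2] at e1
      have e6 : 0 < (q - p) * (β j - a j t) := mul_pos (by linarith) (by linarith)
      have e7 := mul_le_mul_of_nonneg_left e3 hp.le
      nlinarith
    have := vert_eq hu hsub
    rw [this] at h3
    exact h3 hi
  rcases lt_trichotomy p q with h | h | h
  · exact (bet hu hw h3 hp h hline).elim
  · rw [h] at hline
    exact sub_left_injective (smul_right_injective E hq.ne' hline)
  · exact (bet hw hu h4 hq h hline.symm).elim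

end Pool.Agent.H693.Dep
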