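import Mathlib
set_option autoImplicit false

/-!
# Short improving paths from shallow families of tight sets: the abstract argument
-/

namespace Pool.Agent.H693.Dep

open Finset

variable {R : Type*} [DecidableEq R]

/-- The family `F` is `r`-shallow at `(S, D)`: among the members which contain `S` and avoid `D`
(the region of `(S, D)`) there is at most one, if `r = 0`; and if `r = k + 1`, then for every
member `t` of the region and every set `S'` between `S` and `t`, the family is `k`-shallow at
`(S', D ∪ (t \ S'))`. -/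
def Shal (F : Set (Finset R)) : ℕ → Finset R → Finset R → Prop
  | 0, S, D => ∀ t ∈ F, ∀ u ∈ F, S ⊆ t → Disjoint t D → S ⊆ u → Disjoint u D → t = u
  | r + 1, S, D => ∀ t ∈ F, S ⊆ t → Disjoint t D → ∀ S', S ⊆ S' → S' ⊆ t →
      Shal F r S' (D ∪ (t \ S'))

/-- walks with `N` steps -/
inductive W {V : Type*} (St : V → V → Prop) : ℕ → V → V → Prop
  | nil (v : V) : W St 0 v v
  | cons (N : ℕ) (v w z : V) : St v w → W St N w z → W St (N + 1) v z

variable {V : Type*} {St : V → V → Prop}

theorem W.trans {N M : ℕ} {v w z : V} (h : W St N v w) (h' : W St M w z) : W St (N + M) v z := by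
  induction h with
  | nil v => rwa [Nat.zero_add]
  | cons N v w y h1 _ ih =>
    have e : N + 1 + M = (N + M) + 1 := by omega
    rw [e]
    exact .cons _ _ _ _ h1 (ih h')

theorem W.single {v w : V} (h : St v w) : W St 1 v w := .cons 0 v w w h (.nil w)

/-- The walk argument. `T v` are the rows tight at `v`, `f` is the objective function, `St` are the
improving edges, `stop v` says that there is an unbounded improving edge at `v`. -/
theorem level [Finite V] (T : V → Finset R) (f : V → ℝ) (stop : V → Prop) (dim : Finset R → ℕ)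
    (inj : ∀ v u, T v ⊆ T u → v = u)
    (hdim : ∀ v u v' u', T v ∩ T u ⊂ T v' ∩ T u' → dim (T v' ∩ T u') < dim (T v ∩ T u))
    (hfi : ∀ v u, f v < f u → stop v ∨ ∃ w, St v w ∧ f v < f w ∧ T v ∩ T u ⊆ T w)
    (r : ℕ) : ∀ (S D : Finset R) (q : ℕ), Shal (Set.range T) r S D →
      (∀ u w, S ⊆ T u ∩ T w → dim (T u ∩ T w) ≤ q) → ∀ v, S ⊆ T v → Disjoint (T v) D →
      ∃ (N : ℕ) (w : V), N + 1 ≤ (q + r).choose r ∧ W St N v w ∧ S ⊆ T w ∧
        (stop w ∨ ¬ Disjoint (T w) D ∨ ∀ u, S ⊆ T u → Disjoint (T u) D → f u ≤ f w) := by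
  classical
  induction r with
  | zero =>
    intro S D q hS _ v hv hvD
    refine ⟨0, v, by simp, .nil v, hv, Or.inr (Or.inr fun u hu huD => ?_)⟩
    have h1 := hS (T v) ⟨v, rfl⟩ (T u) ⟨u, rfl⟩ hv hvD hu huD
    have h2 := inj v u h1.le
    rw [h2]
  | succ r ihr =>
    intro S D q hS hq v₀ hv₀ hv₀D
    -- the target
    obtain ⟨t, ⟨htS, htD⟩, htmax⟩ : ∃ t, (S ⊆ T t ∧ Disjoint (T t) D) ∧
        ∀ u, (S ⊆ T u ∧ Disjoint (T u) D) → f u ≤ f t := by
      obtain ⟨t, h1, h2⟩ := Set.exists_max_image {u | S ⊆ T u ∧ Disjoint (T u) D} f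
        (Set.toFinite _) ⟨v₀, hv₀, hv₀D⟩
      exact ⟨t, h1, h2⟩
    have key : ∀ (p : ℕ) (v : V), S ⊆ T v → Disjoint (T v) D → dim (T v ∩ T t) ≤ p →
        ∃ (N : ℕ) (w : V), N + 1 ≤ (p + (r + 1)).choose (r + 1) ∧ W St N v w ∧ S ⊆ T w ∧
        (stop w ∨ ¬ Disjoint (T w) D ∨ ∀ u, S ⊆ T u → Disjoint (T u) D → f u ≤ f w) := by
      intro p
      induction p with
      | zero =>
        intro v hv hvD hp
        have h1 : ¬ T v ∩ T t ⊂ T v ∩ T v := fun h => by
          have := hdim v t v v h
          omega
        have h2 : T v ⊆ T t := by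
          by_contra hcon
          apply h1
          rw [inter_self]
          refine ⟨inter_subset_left, fun h => hcon fun i hi => ?_⟩
          exact (mem_inter.1 (h hi)).2
        obtain rfl := inj v t h2
        exact ⟨0, v, by simp, .nil v, hv, Or.inr (Or.inr fun u hu huD => htmax u ⟨hu, huD⟩)⟩
      | succ p ihp =>
        intro v hv hvD hp
        rcases le_or_gt (f t) (f v) with hle | hlt
        · refine ⟨0, v, ?_, .nil v, hv, Or.inr (Or.inr fun u hu huD =>
            (htmax u ⟨hu, huD⟩).trans hle)⟩
          have : 0 < (p + 1 + (r + 1)).choose (r + 1) := Nat.choose_pos (by omega)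
          omega
        -- the recursion
        set S' := T v ∩ T t with hS'
        have hSS' : S ⊆ S' := subset_inter hv htS
        have hvD' : Disjoint (T v) (D ∪ (T t \ S')) := by
          rw [disjoint_union_right]
          refine ⟨hvD, disjoint_left.2 fun i hi hi' => ?_⟩
          obtain ⟨h1, h2⟩ := mem_sdiff.1 hi'
          exact h2 (mem_inter.2 ⟨hi, h1⟩)
        obtain ⟨N₁, v₁, hN₁, hw₁, hS₁, h₁⟩ := ihr S' (D ∪ (T t \ S')) (p + 1)
          (hS (T t) ⟨t, rfl⟩ htS htD S' hSS' inter_subset_right)
          (fun u w huw => by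
            rcases eq_or_ssubset_of_subset huw with h | h
            · rw [← h]; exact hp
            · have h5 : dim (T u ∩ T w) < dim S' := hdim v t u w h
              omega) v inter_subset_left hvD'
        have hpas : (p + 1 + (r + 1)).choose (r + 1) =
            (p + 1 + r).choose r + (p + (r + 1)).choose (r + 1) := by
          have e1 : p + 1 + (r + 1) = (p + 1 + r) + 1 := by ring
          have e2 : p + (r + 1) = p + 1 + r := by ring
          rw [e1, Nat.choose_succ_succ, e2]
        have hpos : 0 < (p + (r + 1)).choose (r + 1) := Nat.choose_pos (by omega)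
        -- a vertex which hits `D'`
        have hit : ∀ (M : ℕ) (w : V), M ≤ N₁ + 1 → W St M v w → S' ⊆ T w →
            ¬ Disjoint (T w) (D ∪ (T t \ S')) →
            ∃ (N : ℕ) (w : V), N + 1 ≤ (p + 1 + (r + 1)).choose (r + 1) ∧ W St N v w ∧ S ⊆ T w ∧
              (stop w ∨ ¬ Disjoint (T w) D ∨
                ∀ u, S ⊆ T u → Disjoint (T u) D → f u ≤ f w) := by
          intro M w hM hw hSw hD
          by_cases hwD : Disjoint (T w) D
          · have h3 : S' ⊂ T w ∩ T t := by
              refine ⟨subset_inter hSw inter_subset_right, fun h => hD ?_⟩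
              rw [disjoint_union_right]
              refine ⟨hwD, disjoint_left.2 fun i hi hi' => ?_⟩
              obtain ⟨h1, h2⟩ := mem_sdiff.1 hi'
              exact h2 (h (mem_inter.2 ⟨hi, h1⟩))
            have h4 : dim (T w ∩ T t) < dim S' := hdim v t w t h3
            obtain ⟨N₂, w₂, hN₂, hw₂, hS₂, h₂⟩ := ihp w (hSS'.trans hSw) hwD (by omega)
            exact ⟨M + N₂, w₂, by omega, hw.trans hw₂, hS₂, h₂⟩
          · exact ⟨M, w, by omega, hw, hSS'.trans hSw, Or.inr (Or.inl hwD)⟩
        rcases h₁ with h₁ | h₁ | h₁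
        · exact ⟨N₁, v₁, by omega, hw₁, hSS'.trans hS₁, Or.inl h₁⟩
        · exact hit N₁ v₁ (by omega) hw₁ hS₁ h₁
        · by_cases hD₁ : Disjoint (T v₁) (D ∪ (T t \ S'))
          swap
          · exact hit N₁ v₁ (by omega) hw₁ hS₁ hD₁
          rcases le_or_gt (f t) (f v₁) with hle | hlt₁
          · exact ⟨N₁, v₁, by omega, hw₁, hSS'.trans hS₁, Or.inr (Or.inr fun u hu huD =>
              (htmax u ⟨hu, huD⟩).trans hle)⟩
          rcases hfi v₁ t hlt₁ with hst | ⟨v₂, hs₂, hf₂, hT₂⟩
          · exact ⟨N₁, v₁, by omega, hw₁, hSS'.trans hS₁, Or.inl hst⟩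
          · have hS₂ : S' ⊆ T v₂ := (subset_inter hS₁ inter_subset_right).trans hT₂
            refine hit (N₁ + 1) v₂ le_rfl (hw₁.trans (W.single hs₂)) hS₂ fun hD₂ => ?_
            exact absurd (h₁ v₂ hS₂ hD₂) (not_le.2 hf₂)
    exact key q v₀ hv₀ hv₀D (hq v₀ t (subset_inter hv₀ htS))

/-! ### Blocks -/

/-- larger families -/
theorem Shal.mono {F G : Set (Finset R)} (h : F ⊆ G) (r : ℕ) : ∀ {S D : Finset R},
    Shal G r S D → Shal F r S D := by
  induction r with
  | zero => intro S D hG t ht u hu; exact hG t (h ht) u (h hu)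
  | succ r ih => intro S D hG t ht h1 h2 S' h3 h4; exact ih (hG t (h ht) h1 h2 S' h3 h4)

section Blocks

variable {K : Type*} [DecidableEq K] {J : K → Type*} [∀ k, Fintype (J k)] [∀ k, DecidableEq (J k)]

/-- the part of a set of rows in the block `k` -/
def part (k : K) (t : Finset (Σ k, J k)) : Finset (J k) := univ.filter fun j => (⟨k, j⟩ : Σ k, J k) ∈ t

theorem mem_part {k : K} {t : Finset (Σ k, J k)} {j : J k} :
    j ∈ part k t ↔ (⟨k, j⟩ : Σ k, J k) ∈ t := by simp [part]

theorem part_ext {t u : Finset (Σ k, J k)} (h : ∀ k, part k t = part k u) : t = u := by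
  ext ⟨k, j⟩
  rw [← mem_part, ← mem_part, h k]

theorem part_mono {k : K} {t u : Finset (Σ k, J k)} (h : t ⊆ u) : part k t ⊆ part k u :=
  fun _ hj => mem_part.2 (h (mem_part.1 hj))

theorem part_disj {k : K} {t u : Finset (Σ k, J k)} (h : Disjoint t u) :
    Disjoint (part k t) (part k u) :=
  disjoint_left.2 fun _ hj hj' => disjoint_left.1 h (mem_part.1 hj) (mem_part.1 hj')

/-- A family of sets whose parts in the blocks `J k` are members of families `G k` of sets with at
least `d k` elements, such that no member contains another one, and such that at most one member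
arises from a member by the exchange of one element for others, is `r`-shallow if the blocks have at
most `d k + 2 r` elements. -/
theorem shal_blocks {F : Set (Finset (Σ k, J k))} {G : ∀ k, Set (Finset (J k))} {d : K → ℕ}
    (hF : ∀ t ∈ F, ∀ k, part k t ∈ G k) (hd : ∀ k, ∀ t ∈ G k, d k ≤ t.card)
    (hanti : ∀ k, ∀ t ∈ G k, ∀ u ∈ G k, t ⊆ u → t = u)
    (hedge : ∀ k, ∀ t ∈ G k, ∀ u ∈ G k, ∀ w ∈ G k, ∀ i ∈ t, t.erase i ⊆ u → t.erase i ⊆ w →
      i ∉ u → i ∉ w → u = w) (r : ℕ) : ∀ S D : Finset (Σ k, J k),
    (∀ k, Fintype.card (J k) ≤ d k + 2 * r + (part k D).card ∨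
      ∀ t ∈ F, ∀ u ∈ F, S ⊆ t → Disjoint t D → S ⊆ u → Disjoint u D → part k t = part k u) →
    Shal F r S D := by
  induction r with
  | zero =>
    intro S D h t ht u hu h1 h2 h3 h4
    refine part_ext fun k => ?_
    rcases h k with h5 | h5
    · have key : ∀ t ∈ F, Disjoint t D → part k t = (part k D)ᶜ := by
        intro t ht htD
        have h6 := part_disj (k := k) htD
        have h7 : part k t ⊆ (part k D)ᶜ := fun j hj =>
          mem_compl.2 (disjoint_left.1 h6 hj)
        refine eq_of_subset_of_card_le h7 ?_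
        have h8 := hd k _ (hF t ht k)
        rw [card_compl]
        omega
      rw [key t ht h2, key u hu h4]
    · exact h5 t ht u hu h1 h2 h3 h4
  | succ r ih =>
    intro S D h t ht h1 h2 S' h3 h4
    refine ih _ _ fun k => ?_
    have hmono : ∀ u, S' ⊆ u → Disjoint u (D ∪ (t \ S')) → S ⊆ u ∧ Disjoint u D :=
      fun u hu hu' => ⟨h3.trans hu, hu'.mono_right subset_union_left⟩
    rcases h k with h5 | h5
    · have h6 : part k (D ∪ (t \ S')) = part k D ∪ (part k t \ part k S') := by
        ext j
        simp [mem_part]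
      have h7 : Disjoint (part k D) (part k t \ part k S') :=
        ((part_disj (k := k) h2).symm).mono_right sdiff_subset
      rcases Nat.lt_or_ge (part k t \ part k S').card 2 with h8 | h8
      · right
        have hcase : (part k t \ part k S').card = 0 ∨ (part k t \ part k S').card = 1 := by omega
        rcases hcase with h9 | h9
        · rw [card_eq_zero, sdiff_eq_empty_iff_subset] at h9
          have key : ∀ u ∈ F, S' ⊆ u → part k t = part k u := fun u hu hu' =>
            hanti k _ (hF t ht k) _ (hF u hu k) (h9.trans (part_mono hu'))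
          intro u hu w hw g1 g2 g3 g4
          rw [← key u hu g1, ← key w hw g3]
        · obtain ⟨i, hi⟩ := card_eq_one.1 h9
          have hit : i ∈ part k t \ part k S' := by rw [hi]; exact mem_singleton_self i
          have hsub : (part k t).erase i ⊆ part k S' := by
            intro j hj
            obtain ⟨g1, g2⟩ := mem_erase.1 hj
            by_contra hcon
            have : j ∈ part k t \ part k S' := mem_sdiff.2 ⟨g2, hcon⟩
            rw [hi, mem_singleton] at this
            exact g1 this
          have hni : ∀ u, Disjoint u (D ∪ (t \ S')) → i ∉ part k u := by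
            intro u hu hiu
            have g1 := part_disj (k := k) hu
            rw [h6] at g1
            exact disjoint_left.1 g1 hiu (mem_union_right _ hit)
          intro u hu w hw g1 g2 g3 g4
          exact hedge k _ (hF t ht k) _ (hF u hu k) _ (hF w hw k) i (mem_sdiff.1 hit).1
            (hsub.trans (part_mono g1)) (hsub.trans (part_mono g3)) (hni u g2) (hni w g4)
      · left
        rw [h6, card_union_of_disjoint h7]
        omega
    · right
      intro u hu w hw g1 g2 g3 g4
      obtain ⟨e1, e2⟩ := hmono u g1 g2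
      obtain ⟨e3, e4⟩ := hmono w g3 g4
      exact h5 u hu w hw e1 e2 e3 e4

end Blocks

end Pool.Agent.H693.Dep
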